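import Pool.Agent.Helper50.ETH.Defs
import Mathlib

/-!
# MP_bca398_lc, project ETH, part B: parameters and size bounds

All numbers are those of `Pool.Agent.Helper50.ETH.Defs`.  `XX n = kap n ^ 2 * rr n` is the basic exponent:
`bound n ≤ 2 ^ (30 * XX n)` (`bound_le`) and `XX n ≤ 64 * (n ^ (2/3) * log (n + 2) ^ (1/3) + 1)` (`XX_le`).
-/

set_option autoImplicit false

namespace Pool.Agent.Helper16.ETH

open Pool.Agent.Helper36.PT Pool.Agent.Helper50.ETH

theorem mu_spec {n : ℕ} {Q : ℕ → Prop} (h : ∃ i, i < n ∧ Q i) : mu n Q < n ∧ Q (mu n Q) := by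
  classical
  unfold mu
  rw [dif_pos h]
  exact Nat.find_spec h

theorem mu_min {n : ℕ} {Q : ℕ → Prop} {i : ℕ} (h : i < mu n Q) : ¬ Q i := by
  classical
  intro hQ
  by_cases hn : i < n
  · have hex : ∃ i, i < n ∧ Q i := ⟨i, hn, hQ⟩
    unfold mu at h
    rw [dif_pos hex] at h
    exact absurd (Nat.find_min' hex ⟨hn, hQ⟩) (by omega)
  · unfold mu at h
    split_ifs at h with hex
    · have := (Nat.find_spec hex).1
      omega
    · omega

theorem exists_k (n : ℕ) : ∃ k, k < n + 1 ∧ n ≤ k ^ 3 * Nat.log 2 (k + 2) := by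
  refine ⟨n, Nat.lt_succ_self n, ?_⟩
  have h1 : 1 ≤ Nat.log 2 (n + 2) := Nat.log_pos (by norm_num) (by omega)
  rcases Nat.eq_zero_or_pos n with h | h
  · subst h; simp
  · calc n = n ^ 1 * 1 := by simp
      _ ≤ n ^ 3 * Nat.log 2 (n + 2) := Nat.mul_le_mul (Nat.pow_le_pow_right h (by norm_num)) h1

theorem k0_le (n : ℕ) : k0 n ≤ n := Nat.lt_succ_iff.1 (mu_spec (exists_k n)).1

theorem k0_spec (n : ℕ) : n ≤ k0 n ^ 3 * Nat.log 2 (k0 n + 2) := (mu_spec (exists_k n)).2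

theorem k0_min (n : ℕ) {k : ℕ} (h : k < k0 n) : k ^ 3 * Nat.log 2 (k + 2) < n := by
  have := mu_min (n := n + 1) (Q := fun k => n ≤ k ^ 3 * Nat.log 2 (k + 2)) h
  simpa using this

theorem kap_le (n : ℕ) : kap n ≤ n + 2 := by
  have := k0_le n
  unfold kap; omega

theorem two_le_kap (n : ℕ) : 2 ≤ kap n := by unfold kap; omega

theorem one_le_rr (n : ℕ) : 1 ≤ rr n := by
  exact Nat.log_pos (by norm_num) (two_le_kap n)

theorem mm_eq (n : ℕ) : mm n = kap n ^ 6 := by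
  unfold mm DD; ring

theorem three_le_DD (n : ℕ) : 3 ≤ DD n := by
  have := two_le_kap n
  unfold DD; nlinarith

theorem n_le (n : ℕ) : n ≤ DD n * gg n := by
  calc n ≤ k0 n ^ 3 * Nat.log 2 (k0 n + 2) := k0_spec n
    _ ≤ kap n ^ 3 * rr n := by
        refine Nat.mul_le_mul (Nat.pow_le_pow_left (by unfold kap; omega) 3) (le_of_eq rfl)
    _ = DD n * gg n := by unfold DD gg; ring

theorem two_mul_kap_lt_mm (n : ℕ) : 2 * kap n < mm n := by
  rw [mm_eq]
  have h2 := two_le_kap n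
  have h : 2 ^ 5 ≤ kap n ^ 5 := Nat.pow_le_pow_left h2 5
  calc 2 * kap n < 2 ^ 5 * kap n := by omega
    _ ≤ kap n ^ 5 * kap n := Nat.mul_le_mul_right _ h
    _ = kap n ^ 6 := by ring

theorem mm_pos (n : ℕ) : 0 < mm n := by
  have := two_mul_kap_lt_mm n; omega

theorem exists_q (n : ℕ) : ∃ q, q < 2 * mm n + 1 ∧ (mm n ≤ q ∧ q.Prime) := by
  obtain ⟨p, hp, h1, h2⟩ := Nat.exists_prime_lt_and_le_two_mul (mm n) (mm_pos n).ne'
  exact ⟨p, by omega, h1.le, hp⟩

theorem mm_le_qq (n : ℕ) : mm n ≤ qq n := (mu_spec (exists_q n)).2.1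

theorem prime_qq (n : ℕ) : (qq n).Prime := (mu_spec (exists_q n)).2.2

theorem qq_le (n : ℕ) : qq n ≤ 2 * mm n := Nat.lt_succ_iff.1 (mu_spec (exists_q n)).1

theorem two_pow_rr_le_kap (n : ℕ) : 2 ^ rr n ≤ kap n :=
  Nat.pow_log_le_self 2 (by have := two_le_kap n; omega)

theorem kap_lt (n : ℕ) : kap n < 2 ^ (rr n + 1) := Nat.lt_pow_succ_log_self (by norm_num) _

theorem two_pow_rr_le_qq (n : ℕ) : 2 ^ rr n ≤ qq n := by
  have h1 := two_pow_rr_le_kap n
  have h2 := two_mul_kap_lt_mm n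
  have h3 := mm_le_qq n
  omega

theorem two_pow_rr_lt_qq (n : ℕ) : 2 ^ rr n < qq n := by
  have h1 := two_pow_rr_le_kap n
  have h2 := two_mul_kap_lt_mm n
  have h3 := mm_le_qq n
  have h4 := two_le_kap n
  omega

theorem mm_le_pow (n : ℕ) : mm n ≤ 2 ^ (12 * rr n) := by
  rw [mm_eq]
  have h := (kap_lt n).le
  have h1 := one_le_rr n
  calc kap n ^ 6 ≤ (2 ^ (rr n + 1)) ^ 6 := Nat.pow_le_pow_left h 6
    _ = 2 ^ ((rr n + 1) * 6) := by rw [← pow_mul]
    _ ≤ 2 ^ (12 * rr n) := Nat.pow_le_pow_right (by norm_num) (by omega)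

theorem qq_le_pow (n : ℕ) : qq n ≤ 2 ^ (13 * rr n) := by
  have h1 := one_le_rr n
  calc qq n ≤ 2 * mm n := qq_le n
    _ ≤ 2 * 2 ^ (12 * rr n) := Nat.mul_le_mul_left _ (mm_le_pow n)
    _ = 2 ^ (12 * rr n + 1) := by rw [pow_succ]; ring
    _ ≤ 2 ^ (13 * rr n) := Nat.pow_le_pow_right (by norm_num) (by omega)

/-- the basic exponent: every size below is at most `2 ^ (C * XX n)` -/
noncomputable def XX (n : ℕ) : ℕ := kap n ^ 2 * rr n

theorem rr_le_XX (n : ℕ) : 4 * rr n ≤ XX n := by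
  unfold XX
  have h2 := two_le_kap n
  exact Nat.mul_le_mul_right _ (by nlinarith)

theorem four_le_XX (n : ℕ) : 4 ≤ XX n := by
  have h1 := rr_le_XX n
  have h2 := one_le_rr n
  omega

theorem kap_rr_le_XX (n : ℕ) : 2 * (kap n * rr n) ≤ XX n := by
  unfold XX
  have h2 := two_le_kap n
  calc 2 * (kap n * rr n) ≤ kap n * (kap n * rr n) := Nat.mul_le_mul_right _ h2
    _ = kap n ^ 2 * rr n := by ring

/-- number of edges of the input hypergraph -/
theorem nE_le (n : ℕ) : nE n ≤ 2 ^ (16 * XX n) := by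
  have h1 := rr_le_XX n
  unfold nE
  calc mm n * qq n ^ DD n ≤ 2 ^ (12 * rr n) * (2 ^ (13 * rr n)) ^ DD n :=
        Nat.mul_le_mul (mm_le_pow n) (Nat.pow_le_pow_left (qq_le_pow n) _)
    _ = 2 ^ (12 * rr n + 13 * rr n * DD n) := by rw [← pow_mul, ← pow_add]
    _ ≤ 2 ^ (16 * XX n) := by
        refine Nat.pow_le_pow_right (by norm_num) ?_
        have : 13 * rr n * DD n = 13 * XX n := by unfold XX DD; ring
        omega

theorem nV_le (n : ℕ) : nV n ≤ 2 ^ (12 * rr n + 3 * (kap n * rr n)) := by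
  unfold nV gg
  rw [pow_add]
  exact Nat.mul_le_mul_right _ (mm_le_pow n)

theorem nV_succ_le (n : ℕ) : nV n + 1 ≤ 2 ^ (13 * rr n + 3 * (kap n * rr n)) := by
  have h := nV_le n
  have h1 := one_le_rr n
  calc nV n + 1 ≤ 2 ^ (12 * rr n + 3 * (kap n * rr n)) + 2 ^ (12 * rr n + 3 * (kap n * rr n)) :=
        Nat.add_le_add h Nat.one_le_two_pow
    _ = 2 ^ (12 * rr n + 3 * (kap n * rr n) + 1) := by rw [pow_succ]; ring
    _ ≤ 2 ^ (13 * rr n + 3 * (kap n * rr n)) := Nat.pow_le_pow_right (by norm_num) (by omega)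

theorem nV_succ_le' (n : ℕ) : nV n + 1 ≤ 2 ^ (5 * XX n) := by
  refine (nV_succ_le n).trans (Nat.pow_le_pow_right (by norm_num) ?_)
  have h1 := rr_le_XX n
  have h2 := kap_rr_le_XX n
  omega

/-- small transversals, with two spare factors -/
theorem small_le (n : ℕ) : (nV n + 1) ^ (2 * kap n + 2) ≤ 2 ^ (29 * XX n) := by
  calc (nV n + 1) ^ (2 * kap n + 2) ≤ (2 ^ (13 * rr n + 3 * (kap n * rr n))) ^ (2 * kap n + 2) :=
        Nat.pow_le_pow_left (nV_succ_le n) _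
    _ = 2 ^ ((13 * rr n + 3 * (kap n * rr n)) * (2 * kap n + 2)) := by rw [← pow_mul]
    _ ≤ 2 ^ (29 * XX n) := by
        refine Nat.pow_le_pow_right (by norm_num) ?_
        have h1 := rr_le_XX n
        have h2 := kap_rr_le_XX n
        have h3 : (13 * rr n + 3 * (kap n * rr n)) * (2 * kap n + 2)
            = 26 * rr n + 32 * (kap n * rr n) + 6 * XX n := by
          unfold XX; ring
        omega

/-- the number `bound n` (all bounds in one) -/
theorem bound_le (n : ℕ) : bound n ≤ 2 ^ (30 * XX n) := by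
  have h1 := nE_le n
  have h2 := nV_succ_le' n
  have h3 := four_le_XX n
  have h4 := small_le n
  have m1 : (2 : ℕ) ^ (5 * XX n) ≤ 2 ^ (29 * XX n) := Nat.pow_le_pow_right (by norm_num) (by omega)
  have m2 : (2 : ℕ) ^ (16 * XX n) ≤ 2 ^ (29 * XX n) := Nat.pow_le_pow_right (by norm_num) (by omega)
  have m3 : (nE n + 1) * (nV n + 1) ≤ 2 ^ (29 * XX n) := by
    have h5 : nE n + 1 ≤ 2 ^ (17 * XX n) := by
      calc nE n + 1 ≤ 2 ^ (16 * XX n) + 2 ^ (16 * XX n) := Nat.add_le_add h1 Nat.one_le_two_pow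
        _ = 2 ^ (16 * XX n + 1) := by rw [pow_succ]; ring
        _ ≤ 2 ^ (17 * XX n) := Nat.pow_le_pow_right (by norm_num) (by omega)
    calc (nE n + 1) * (nV n + 1) ≤ 2 ^ (17 * XX n) * 2 ^ (5 * XX n) := Nat.mul_le_mul h5 h2
      _ = 2 ^ (22 * XX n) := by rw [← pow_add]; ring_nf
      _ ≤ 2 ^ (29 * XX n) := Nat.pow_le_pow_right (by norm_num) (by omega)
  have m4 : 2 ≤ 2 ^ (29 * XX n) := by
    calc 2 = 2 ^ 1 := by norm_num
      _ ≤ 2 ^ (29 * XX n) := Nat.pow_le_pow_right (by norm_num) (by omega)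
  have m5 : 8 * 2 ^ (29 * XX n) ≤ 2 ^ (30 * XX n) := by
    calc 8 * 2 ^ (29 * XX n) = 2 ^ (29 * XX n + 3) := by rw [pow_add]; ring
      _ ≤ 2 ^ (30 * XX n) := Nat.pow_le_pow_right (by norm_num) (by omega)
  unfold bound
  omega

/-- the input word has length at most `bound n` -/
theorem input_length_le (n : ℕ) : nV n + 1 + nE n * (nV n + 1) ≤ bound n := by
  unfold bound
  have : (nE n + 1) * (nV n + 1) = nE n * (nV n + 1) + (nV n + 1) := by ring
  omega

/-- the output word has length at most `bound n` if all minimal transversals are small -/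
theorem output_length_le (n : ℕ) : (nV n + 1) ^ (2 * kap n) * (nV n + 1) ≤ bound n := by
  have h : (nV n + 1) ^ (2 * kap n) * (nV n + 1) ≤ (nV n + 1) ^ (2 * kap n + 2) := by
    rw [← pow_succ]
    exact Nat.pow_le_pow_right (by omega) (by omega)
  unfold bound
  omega

/-- input plus output -/
theorem total_length_le (n : ℕ) :
    (nV n + 1 + nE n * (nV n + 1)) + (nV n + 1) ^ (2 * kap n) * (nV n + 1) ≤ bound n := by
  have h : (nV n + 1) ^ (2 * kap n) * (nV n + 1) ≤ (nV n + 1) ^ (2 * kap n + 2) := by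
    rw [← pow_succ]
    exact Nat.pow_le_pow_right (by omega) (by omega)
  unfold bound
  have : (nE n + 1) * (nV n + 1) = nE n * (nV n + 1) + (nV n + 1) := by ring
  omega

/-- the growth of `XX` : cubic form -/
theorem XX_cube_le (n : ℕ) (hk : 2 ≤ k0 n) :
    ((XX n : ℝ)) ^ 3 ≤ 81920 * ((n : ℝ) ^ 2 * Real.log ((n : ℝ) + 2)) := by
  obtain ⟨j, hj⟩ : ∃ j, k0 n = j + 1 := ⟨k0 n - 1, by omega⟩
  have hj1 : 1 ≤ j := by omega
  have hmin' : j ^ 3 * Nat.log 2 (j + 2) < n := k0_min n (by omega)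
  have hkap : kap n = j + 3 := by unfold kap; omega
  have hlog1 : 1 ≤ Nat.log 2 (j + 2) := Nat.log_pos (by norm_num) (by omega)
  have hr : rr n ≤ 2 * Nat.log 2 (j + 2) := by
    have h1 : rr n ≤ Nat.log 2 (j + 2) + 1 := by
      have h2 : kap n < 2 ^ (Nat.log 2 (j + 2) + 1 + 1) := by
        have h3 : j + 2 < 2 ^ (Nat.log 2 (j + 2) + 1) := Nat.lt_pow_succ_log_self (by norm_num) _
        rw [hkap, pow_succ]
        omega
      have := Nat.log_lt_of_lt_pow (b := 2) (by have := two_le_kap n; omega) h2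
      unfold rr
      omega
    omega
  -- kap^3 * r ≤ 128 n
  have hA : kap n ^ 3 * rr n ≤ 128 * n := by
    calc kap n ^ 3 * rr n ≤ (4 * j) ^ 3 * (2 * Nat.log 2 (j + 2)) :=
          Nat.mul_le_mul (Nat.pow_le_pow_left (by omega) 3) hr
      _ = 128 * (j ^ 3 * Nat.log 2 (j + 2)) := by ring
      _ ≤ 128 * n := Nat.mul_le_mul_left _ hmin'.le
  have hjn : j ≤ n := by
    have : j ≤ j ^ 3 * Nat.log 2 (j + 2) := by
      calc j = j ^ 1 * 1 := by simp
        _ ≤ j ^ 3 * Nat.log 2 (j + 2) := Nat.mul_le_mul (Nat.pow_le_pow_right hj1 (by norm_num)) hlog1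
    omega
  have hkn : kap n ≤ 4 * n := by omega
  have hn1 : 1 ≤ n := by omega
  -- r ≤ 5 log (n + 2)
  have hR : (rr n : ℝ) ≤ 5 * Real.log ((n : ℝ) + 2) := by
    have h1 : ((2 : ℝ)) ^ rr n ≤ 4 * n := by
      have : 2 ^ rr n ≤ 4 * n := (two_pow_rr_le_kap n).trans hkn
      exact_mod_cast this
    have hl2 : 0.6931 < Real.log 2 := by
      have := Real.log_two_gt_d9
      linarith
    have hnpos : (0 : ℝ) < n := by exact_mod_cast hn1
    have h2 : (rr n : ℝ) * Real.log 2 ≤ Real.log (4 * n) := by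
      have := Real.log_le_log (by positivity) h1
      rwa [Real.log_pow] at this
    have h3 : Real.log (4 * n) = 2 * Real.log 2 + Real.log n := by
      rw [Real.log_mul (by norm_num) hnpos.ne']
      congr 1
      rw [show (4 : ℝ) = 2 ^ 2 by norm_num, Real.log_pow]
      norm_num
    have h4 : Real.log 2 ≤ Real.log ((n : ℝ) + 2) := Real.log_le_log (by norm_num) (by linarith)
    have h5 : Real.log n ≤ Real.log ((n : ℝ) + 2) := Real.log_le_log hnpos (by linarith)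
    have h6 : (rr n : ℝ) * Real.log 2 ≤ 3 * Real.log ((n : ℝ) + 2) := by linarith
    have h7 : (0 : ℝ) ≤ rr n := by positivity
    nlinarith
  have hlogpos : 0 ≤ Real.log ((n : ℝ) + 2) := Real.log_nonneg (by
    have : (0 : ℝ) ≤ n := by positivity
    linarith)
  have hA' : ((kap n : ℝ)) ^ 3 * (rr n : ℝ) ≤ 128 * n := by exact_mod_cast hA
  have hX : (XX n : ℝ) ^ 3 = ((kap n : ℝ) ^ 3 * (rr n : ℝ)) ^ 2 * (rr n : ℝ) := by
    unfold XX; push_cast; ring
  rw [hX]
  have h8 : ((kap n : ℝ) ^ 3 * (rr n : ℝ)) ^ 2 ≤ (128 * (n : ℝ)) ^ 2 :=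
    pow_le_pow_left₀ (by positivity) hA' 2
  calc ((kap n : ℝ) ^ 3 * (rr n : ℝ)) ^ 2 * (rr n : ℝ)
      ≤ (128 * (n : ℝ)) ^ 2 * (5 * Real.log ((n : ℝ) + 2)) :=
        mul_le_mul h8 hR (by positivity) (by positivity)
    _ = 81920 * ((n : ℝ) ^ 2 * Real.log ((n : ℝ) + 2)) := by ring

/-- the growth of `XX` -/
theorem XX_le (n : ℕ) :
    (XX n : ℝ) ≤ 64 * ((n : ℝ) ^ ((2 : ℝ) / 3) * Real.log ((n : ℝ) + 2) ^ ((1 : ℝ) / 3) + 1) := by
  have hn0 : (0 : ℝ) ≤ n := by positivity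
  have hlog : 0 ≤ Real.log ((n : ℝ) + 2) := Real.log_nonneg (by linarith)
  set Y : ℝ := (n : ℝ) ^ ((2 : ℝ) / 3) * Real.log ((n : ℝ) + 2) ^ ((1 : ℝ) / 3) with hY
  have hY0 : 0 ≤ Y := by positivity
  by_cases hk : 2 ≤ k0 n
  · have h := XX_cube_le n hk
    have hY3 : Y ^ 3 = (n : ℝ) ^ 2 * Real.log ((n : ℝ) + 2) := by
      rw [hY, mul_pow, ← Real.rpow_natCast, ← Real.rpow_natCast, ← Real.rpow_mul hn0, ← Real.rpow_mul hlog]
      norm_num
    rw [← hY3] at h
    have h3 : (XX n : ℝ) ^ 3 ≤ (64 * Y) ^ 3 := by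
      have : (0 : ℝ) ≤ Y ^ 3 := by positivity
      calc (XX n : ℝ) ^ 3 ≤ 81920 * Y ^ 3 := h
        _ ≤ 262144 * Y ^ 3 := by linarith
        _ = (64 * Y) ^ 3 := by ring
    have h4 : (XX n : ℝ) ≤ 64 * Y := le_of_pow_le_pow_left₀ (by norm_num) (by positivity) h3
    linarith
  · have hkap : kap n ≤ 3 := by unfold kap; omega
    have hr : rr n ≤ 1 := by
      have h1 : kap n < 2 ^ 2 := by omega
      have := Nat.log_lt_of_lt_pow (b := 2) (by have := two_le_kap n; omega) h1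
      unfold rr
      omega
    have hX : XX n ≤ 9 := by
      unfold XX
      calc kap n ^ 2 * rr n ≤ 3 ^ 2 * 1 := Nat.mul_le_mul (Nat.pow_le_pow_left hkap 2) hr
        _ = 9 := by norm_num
    have hX' : (XX n : ℝ) ≤ 9 := by exact_mod_cast hX
    linarith

/-! ### names used by the other modules -/

theorem kap_cube_le (n : ℕ) : kap n ^ 3 * rr n ≤ 128 * (n + 1) := by
  by_cases hk : 2 ≤ k0 n
  · obtain ⟨j, hj⟩ : ∃ j, k0 n = j + 1 := ⟨k0 n - 1, by omega⟩
    have hmin' : j ^ 3 * Nat.log 2 (j + 2) < n := k0_min n (by omega)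
    have hkap : kap n = j + 3 := by unfold kap; omega
    have hlog1 : 1 ≤ Nat.log 2 (j + 2) := Nat.log_pos (by norm_num) (by omega)
    have hr : rr n ≤ 2 * Nat.log 2 (j + 2) := by
      have h1 : rr n ≤ Nat.log 2 (j + 2) + 1 := by
        have h2 : kap n < 2 ^ (Nat.log 2 (j + 2) + 1 + 1) := by
          have h3 : j + 2 < 2 ^ (Nat.log 2 (j + 2) + 1) := Nat.lt_pow_succ_log_self (by norm_num) _
          rw [hkap, pow_succ]
          omega
        have := Nat.log_lt_of_lt_pow (b := 2) (by have := two_le_kap n; omega) h2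
        unfold rr
        omega
      omega
    calc kap n ^ 3 * rr n ≤ (4 * j) ^ 3 * (2 * Nat.log 2 (j + 2)) :=
          Nat.mul_le_mul (Nat.pow_le_pow_left (by omega) 3) hr
      _ = 128 * (j ^ 3 * Nat.log 2 (j + 2)) := by ring
      _ ≤ 128 * (n + 1) := Nat.mul_le_mul_left _ (by omega)
  · have hkap : kap n ≤ 3 := by unfold kap; omega
    have hr : rr n ≤ 1 := by
      have h1 : kap n < 2 ^ 2 := by omega
      have := Nat.log_lt_of_lt_pow (b := 2) (by have := two_le_kap n; omega) h1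
      unfold rr
      omega
    calc kap n ^ 3 * rr n ≤ 3 ^ 3 * 1 := Nat.mul_le_mul (Nat.pow_le_pow_left hkap 3) hr
      _ ≤ 128 * (n + 1) := by omega

theorem kap_cube_le' (n : ℕ) : kap n ^ 3 ≤ 128 * (n + 1) :=
  (Nat.le_mul_of_pos_right _ (one_le_rr n)).trans (kap_cube_le n)

theorem XX_eq (n : ℕ) : XX n = kap n ^ 2 * Nat.log 2 (kap n) := rfl

theorem bound_le' (n : ℕ) : bound n ≤ 2 ^ (30 * (kap n ^ 2 * (Nat.log 2 (kap n) + 1))) := by
  refine (bound_le n).trans (Nat.pow_le_pow_right (by norm_num) (Nat.mul_le_mul_left _ ?_))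
  exact Nat.mul_le_mul_left _ (Nat.le_succ _)

theorem le_DD_mul (n : ℕ) : n ≤ DD n * gg n := n_le n

theorem two_kap_lt (n : ℕ) : 2 * kap n < mm n := two_mul_kap_lt_mm n

theorem kap_pos (n : ℕ) : 0 < kap n := by have := two_le_kap n; omega

theorem gg_pos (n : ℕ) : 0 < gg n := Nat.mul_pos (kap_pos n) (one_le_rr n)

theorem two_le_gg (n : ℕ) : 2 ≤ gg n := by
  have h1 := two_le_kap n
  have h2 := one_le_rr n
  unfold gg
  nlinarith

theorem DD_pos (n : ℕ) : 2 ≤ DD n := by have := three_le_DD n; omega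

theorem two_pow_rr_le (n : ℕ) : 2 ^ rr n ≤ qq n := two_pow_rr_le_qq n

theorem qq_pos (n : ℕ) : 0 < qq n := (prime_qq n).pos

theorem two_le_bound (n : ℕ) : 2 ≤ bound n := by unfold bound; omega

end Pool.Agent.Helper16.ETH
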